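import Mathlib

/-!
# MP_70ba79_ag, first order differential equations over `k(u)`: definitions and elementary facts

The proof is in `/team-store/H92_T3.md`. Hahn series with rational exponents in `u`, the derivation
`D = u d/du`. `HS R` is a copy of `HahnSeries ℚ R` (a definition, not an abbreviation, because of the
instance `HahnSeries.powerSeriesAlgebra`).
-/

set_option autoImplicit false

namespace Pool.Agent.H92.OD

open MvPolynomial

/-- Hahn series in `u` with rational exponents and coefficients in `R` -/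
def HS (R : Type) [CommRing R] : Type := HahnSeries ℚ R

noncomputable instance instCommRingHS {R : Type} [CommRing R] : CommRing (HS R) :=
  inferInstanceAs (CommRing (HahnSeries ℚ R))

noncomputable instance instFieldHS {k : Type} [Field k] : Field (HS k) :=
  inferInstanceAs (Field (HahnSeries ℚ k))

section

variable {R : Type} [CommRing R]

/-- coefficient of `u ^ r` -/
def cf (y : HS R) (r : ℚ) : R := HahnSeries.coeff y r

/-- `c u ^ r` -/
noncomputable def sg (r : ℚ) (c : R) : HS R := HahnSeries.single r c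

/-- the series `u` -/
noncomputable def uu (R : Type) [CommRing R] : HS R := sg 1 1

/-- constants -/
noncomputable def CC (R : Type) [CommRing R] : R →+* HS R := HahnSeries.C

noncomputable instance instAlgebraHS {k : Type} [Field k] [Algebra k R] : Algebra k (HS R) :=
  RingHom.toAlgebra ((CC R).comp (algebraMap k R))

/-- all exponents of `y` are in `(1/n) ℤ` -/
def Lat (n : ℕ) (y : HS R) : Prop := ∀ r : ℚ, cf y r ≠ 0 → ∃ m : ℤ, r * n = m

/-- all exponents of `y` are `≥ r` -/
def geO (r : ℚ) (y : HS R) : Prop := ∀ s < r, cf y s = 0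

/-- `r` is the order of `y` -/
def IsO (y : HS R) (r : ℚ) : Prop := cf y r ≠ 0 ∧ geO r y

theorem hs_ext {x y : HS R} (h : ∀ r, cf x r = cf y r) : x = y := HahnSeries.ext (funext h)

@[simp] theorem cf_add (x y : HS R) (r : ℚ) : cf (x + y) r = cf x r + cf y r := rfl

@[simp] theorem cf_zero (r : ℚ) : cf (0 : HS R) r = 0 := rfl

@[simp] theorem cf_neg (x : HS R) (r : ℚ) : cf (-x) r = -cf x r := rfl

@[simp] theorem cf_sub (x y : HS R) (r : ℚ) : cf (x - y) r = cf x r - cf y r := rfl

theorem cf_sum {ι : Type} (s : Finset ι) (f : ι → HS R) (r : ℚ) :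
    cf (∑ i ∈ s, f i) r = ∑ i ∈ s, cf (f i) r := by
  classical
  induction s using Finset.induction_on with
  | empty => simp
  | insert a s ha ih => rw [Finset.sum_insert ha, Finset.sum_insert ha, cf_add, ih]

theorem cf_sg (r s : ℚ) (c : R) : cf (sg r c) s = if s = r then c else 0 := by
  unfold cf sg
  rw [HahnSeries.coeff_single]
  split_ifs <;> rfl

theorem sg_add (r : ℚ) (c c' : R) : sg r (c + c') = sg r c + sg r c' := by
  refine hs_ext fun s => ?_
  rw [cf_add, cf_sg, cf_sg, cf_sg]
  split_ifs <;> simp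

theorem sg_mul_sg (r s : ℚ) (c d : R) : sg r c * sg s d = sg (r + s) (c * d) :=
  HahnSeries.single_mul_single

theorem CC_apply (c : R) : CC R c = sg 0 c := rfl

theorem sg_zero_one : sg 0 (1 : R) = 1 := rfl

theorem algebraMap_HS {k : Type} [Field k] [Algebra k R] (c : k) :
    algebraMap k (HS R) c = sg 0 (algebraMap k R c) := rfl

theorem smul_HS {k : Type} [Field k] [Algebra k R] (c : k) (y : HS R) :
    c • y = sg 0 (algebraMap k R c) * y := rfl

theorem cf_sg_mul (r : ℚ) (c : R) (y : HS R) (s : ℚ) : cf (sg r c * y) s = c * cf y (s - r) := by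
  have h := HahnSeries.coeff_single_mul (r := c) (x := (y : HahnSeries ℚ R)) (a := s) (b := r)
  exact h

theorem cf_mul_low {x y : HS R} {r s : ℚ} (hx : geO r x) (hy : geO s y) :
    geO (r + s) (x * y) ∧ cf (x * y) (r + s) = cf x r * cf y s := by
  classical
  have h1 : ∀ t : ℚ, cf (x * y) t = ∑ ij ∈ Finset.antidiagonal
      (HahnSeries.isPWO_support (x : HahnSeries ℚ R)) (HahnSeries.isPWO_support (y : HahnSeries ℚ R)) t,
      cf x ij.1 * cf y ij.2 := fun t => HahnSeries.coeff_mul
  constructor
  · intro t ht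
    rw [h1]
    refine Finset.sum_eq_zero fun ij hij => ?_
    have h2 : ij.1 + ij.2 = t := (Finset.mem_antidiagonal.1 hij).2.2
    by_cases h3 : ij.1 < r
    · rw [hx _ h3, zero_mul]
    · rw [hy _ (by linarith), mul_zero]
  · rw [h1, Finset.sum_eq_single (r, s)]
    · intro ij hij hne
      have h2 : ij.1 + ij.2 = r + s := (Finset.mem_antidiagonal.1 hij).2.2
      by_cases h3 : ij.1 < r
      · rw [hx _ h3, zero_mul]
      · by_cases h4 : ij.1 = r
        · exact absurd (Prod.ext h4 (by rw [h4] at h2; exact add_left_cancel h2)) hne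
        · rw [hy _ (by
            have h5 : r < ij.1 := lt_of_le_of_ne (not_lt.1 h3) (Ne.symm h4)
            linarith), mul_zero]
    · intro h
      by_contra h0
      refine h (Finset.mem_antidiagonal.2 ⟨?_, ?_, rfl⟩)
      · intro h2
        exact h0 (by
          show cf x r * cf y s = 0
          have h3 : cf x r = 0 := h2
          rw [h3, zero_mul])
      · intro h2
        exact h0 (by
          show cf x r * cf y s = 0
          have h3 : cf y s = 0 := h2
          rw [h3, mul_zero])

theorem geO_mono {r s : ℚ} {y : HS R} (h : geO s y) (hrs : r ≤ s) : geO r y :=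
  fun t ht => h t (ht.trans_le hrs)

theorem geO_zero (r : ℚ) : geO r (0 : HS R) := fun _ _ => rfl

theorem geO_add {r : ℚ} {x y : HS R} (hx : geO r x) (hy : geO r y) : geO r (x + y) :=
  fun t ht => by rw [cf_add, hx t ht, hy t ht, add_zero]

theorem geO_neg {r : ℚ} {x : HS R} (hx : geO r x) : geO r (-x) :=
  fun t ht => by rw [cf_neg, hx t ht, neg_zero]

theorem geO_sub {r : ℚ} {x y : HS R} (hx : geO r x) (hy : geO r y) : geO r (x - y) :=
  fun t ht => by rw [cf_sub, hx t ht, hy t ht, sub_zero]

theorem geO_sum {ι : Type} (s : Finset ι) (f : ι → HS R) (r : ℚ) (h : ∀ i ∈ s, geO r (f i)) :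
    geO r (∑ i ∈ s, f i) := fun t ht => by
  rw [cf_sum]
  exact Finset.sum_eq_zero fun i hi => h i hi t ht

theorem geO_mul {r s : ℚ} {x y : HS R} (hx : geO r x) (hy : geO s y) : geO (r + s) (x * y) :=
  (cf_mul_low hx hy).1

theorem geO_sg (r : ℚ) (c : R) : geO r (sg r c) := fun t ht => by
  rw [cf_sg, if_neg ht.ne]

theorem geO_one : geO 0 (1 : HS R) := geO_sg 0 1

theorem geO_pow {r : ℚ} {x : HS R} (hx : geO r x) (n : ℕ) : geO (n * r) (x ^ n) := by
  induction n with
  | zero => simpa using geO_one (R := R)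
  | succ n ih =>
    rw [pow_succ]
    have h := geO_mul ih hx
    have e : ((n + 1 : ℕ) : ℚ) * r = n * r + r := by push_cast; ring
    rw [e]
    exact h

theorem exists_geO (y : HS R) : ∃ r : ℚ, geO r y := by
  by_cases h : (y : HahnSeries ℚ R) = 0
  · exact ⟨0, fun t _ => by
      have : y = 0 := h
      rw [this, cf_zero]⟩
  · exact ⟨HahnSeries.order (y : HahnSeries ℚ R), fun t ht =>
      HahnSeries.coeff_eq_zero_of_lt_order ht⟩

theorem exists_IsO {y : HS R} (h : y ≠ 0) : ∃ r : ℚ, IsO y r :=
  ⟨HahnSeries.order (y : HahnSeries ℚ R), HahnSeries.coeff_order_eq_zero.not.2 h, fun _ ht =>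
      HahnSeries.coeff_eq_zero_of_lt_order ht⟩

theorem IsO.ne_zero {y : HS R} {r : ℚ} (h : IsO y r) : y ≠ 0 := fun h0 => h.1 (by rw [h0, cf_zero])

theorem IsO.unique {y : HS R} {r s : ℚ} (h : IsO y r) (h' : IsO y s) : r = s := by
  rcases lt_trichotomy r s with h1 | h1 | h1
  · exact absurd (h'.2 r h1) h.1
  · exact h1
  · exact absurd (h.2 s h1) h'.1

theorem IsO.mul [NoZeroDivisors R] {x y : HS R} {r s : ℚ} (hx : IsO x r) (hy : IsO y s) :
    IsO (x * y) (r + s) :=
  ⟨by rw [(cf_mul_low hx.2 hy.2).2]; exact mul_ne_zero hx.1 hy.1, geO_mul hx.2 hy.2⟩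

/-- the coefficients below the order of the difference agree -/
theorem IsO.of_sub {x y : HS R} {r s : ℚ} (hx : IsO x r) (h : geO s (x - y)) (hrs : r < s) :
    IsO y r ∧ cf y r = cf x r := by
  have h1 : ∀ t < s, cf y t = cf x t := fun t ht => by
    have := h t ht
    rw [cf_sub] at this
    exact (sub_eq_zero.1 this).symm
  exact ⟨⟨by rw [h1 r hrs]; exact hx.1, fun t ht => by rw [h1 t (ht.trans hrs)]; exact hx.2 t ht⟩,
    h1 r hrs⟩

theorem uu_pow (n : ℕ) : uu R ^ n = sg n 1 := by
  induction n with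
  | zero => simp [sg_zero_one]
  | succ n ih =>
    rw [pow_succ, ih]
    unfold uu
    rw [sg_mul_sg, one_mul]
    push_cast
    rfl

end

section Derivation

variable {R : Type} [CommRing R] [Algebra ℚ R]

/-- the operator `u d/du` -/
noncomputable def DF (y : HS R) : HS R :=
  { coeff := fun r => r • cf y r
    isPWO_support' := (HahnSeries.isPWO_support (y : HahnSeries ℚ R)).mono fun r hr h => hr (by
      show r • cf y r = 0
      have h' : cf y r = 0 := h
      rw [h', smul_zero]) : HahnSeries ℚ R }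

@[simp] theorem cf_DF (y : HS R) (r : ℚ) : cf (DF y) r = r • cf y r := rfl

theorem DF_add (x y : HS R) : DF (x + y) = DF x + DF y := by
  refine hs_ext fun r => ?_
  rw [cf_DF, cf_add, cf_add, smul_add, cf_DF, cf_DF]

theorem DF_mul (x y : HS R) : DF (x * y) = x * DF y + y * DF x := by
  refine hs_ext fun r => ?_
  have hx := HahnSeries.isPWO_support (x : HahnSeries ℚ R)
  have hy := HahnSeries.isPWO_support (y : HahnSeries ℚ R)
  have sx : HahnSeries.support (DF x : HahnSeries ℚ R) ⊆ HahnSeries.support (x : HahnSeries ℚ R) :=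
    fun r hr h => hr (by
      show r • cf x r = 0
      have h' : cf x r = 0 := h
      rw [h', smul_zero])
  have sy : HahnSeries.support (DF y : HahnSeries ℚ R) ⊆ HahnSeries.support (y : HahnSeries ℚ R) :=
    fun r hr h => hr (by
      show r • cf y r = 0
      have h' : cf y r = 0 := h
      rw [h', smul_zero])
  have e1 : cf (x * y) r = ∑ ij ∈ Finset.antidiagonal hx hy r, cf x ij.1 * cf y ij.2 :=
    HahnSeries.coeff_mul
  have e2 : cf (x * DF y) r = ∑ ij ∈ Finset.antidiagonal hx hy r, cf x ij.1 * cf (DF y) ij.2 :=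
    HahnSeries.coeff_mul_right' hy sy
  have e3 : cf (DF x * y) r = ∑ ij ∈ Finset.antidiagonal hx hy r, cf (DF x) ij.1 * cf y ij.2 :=
    HahnSeries.coeff_mul_left' hx sx
  rw [mul_comm y (DF x), cf_add, cf_DF, e1, e2, e3, ← Finset.sum_add_distrib, Finset.smul_sum]
  refine Finset.sum_congr rfl fun ij hij => ?_
  have h : ij.1 + ij.2 = r := (Finset.mem_antidiagonal.1 hij).2.2
  rw [cf_DF, cf_DF, ← h, add_smul, smul_mul_assoc, mul_smul_comm, add_comm]

theorem DF_sg (r : ℚ) (c : R) : DF (sg r c) = sg r (r • c) := by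
  refine hs_ext fun s => ?_
  rw [cf_DF, cf_sg, cf_sg]
  split_ifs with h
  · rw [h]
  · rw [smul_zero]

/-- the derivation `u d/du` over a field `k` -/
noncomputable def DD (k : Type) [Field k] [Algebra k R] : Derivation k (HS R) (HS R) where
  toFun := DF
  map_add' := DF_add
  map_smul' := by
    intro c y
    rw [RingHom.id_apply, smul_HS, smul_HS, DF_mul, DF_sg, zero_smul]
    have h : sg 0 (0 : R) = 0 := HahnSeries.single_eq_zero
    rw [h, mul_zero, add_zero]
  map_one_eq_zero' := by
    show DF (1 : HS R) = 0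
    rw [← sg_zero_one, DF_sg, zero_smul]
    exact HahnSeries.single_eq_zero
  leibniz' := DF_mul

@[simp] theorem DD_apply (k : Type) [Field k] [Algebra k R] (y : HS R) : DD k y = DF y := rfl

theorem DF_uu : DF (uu R) = uu R := by
  unfold uu
  rw [DF_sg, one_smul]

theorem geO_DF {r : ℚ} {y : HS R} (h : geO r y) : geO r (DF y) := fun s hs => by
  rw [cf_DF, h s hs, smul_zero]

/-- value of a polynomial `Φ (U, Y, P)` at `(u, y, D y)` -/
noncomputable def ev {k : Type} [Field k] [Algebra k R] (Φ : MvPolynomial (Fin 3) k)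
    (y : HS R) : HS R := aeval ![uu R, y, DF y] Φ

end Derivation

section Map

variable {R S : Type} [CommRing R] [CommRing S]

/-- apply a ring homomorphism to the coefficients -/
noncomputable def mp (ψ : R →+* S) : HS R →+* HS S where
  toFun y := HahnSeries.map (y : HahnSeries ℚ R) ψ
  map_one' := hs_ext fun r => by
    show ψ (cf 1 r) = cf 1 r
    rw [← sg_zero_one, ← sg_zero_one, cf_sg, cf_sg]
    split_ifs <;> simp
  map_mul' x y := HahnSeries.map_mul (ψ : R →ₙ+* S)
  map_zero' := hs_ext fun r => by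
    show ψ (cf 0 r) = cf 0 r
    rw [cf_zero, cf_zero, map_zero]
  map_add' x y := hs_ext fun r => by
    show ψ (cf (x + y) r) = ψ (cf x r) + ψ (cf y r)
    rw [cf_add, map_add]

@[simp] theorem cf_mp (ψ : R →+* S) (y : HS R) (r : ℚ) : cf (mp ψ y) r = ψ (cf y r) := rfl

theorem mp_sg (ψ : R →+* S) (r : ℚ) (c : R) : mp ψ (sg r c) = sg r (ψ c) := by
  refine hs_ext fun s => ?_
  rw [cf_mp, cf_sg, cf_sg]
  split_ifs <;> simp

theorem mp_DF [Algebra ℚ R] [Algebra ℚ S] (ψ : R →+* S) (y : HS R) :
    mp ψ (DF y) = DF (mp ψ y) := by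
  refine hs_ext fun r => ?_
  rw [cf_mp, cf_DF, cf_DF, cf_mp, map_rat_smul]

end Map

/-- T3: ramification of the solutions of a differential equation of first order over `k(u)` -/
def T_T3 : Prop := ∀ (k : Type) [Field k] [IsAlgClosed k] [CharZero k]
  (Q : MvPolynomial (Fin 3) k), Q ≠ 0 → ∃ q : ℕ, 0 < q ∧ ∀ y : HS k,
  (∃ n : ℕ, 0 < n ∧ Lat n y) → ev Q y = 0 → Lat q y

end Pool.Agent.H92.OD
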