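import Pool.Agent.H92.OD.Targets

/-!
# MP_70ba79_ag, first order differential equations over `k(u)`: assembly of T3
-/

set_option autoImplicit false

namespace Pool.Agent.H92.OD

open MvPolynomial Filter

theorem transc_gm {k : Type} [Field k] [CharZero k] {𝒰 : Ultrafilter ℕ} (s : ℕ → ℚ)
    (hs : ∀ N : ℚ, ∀ᶠ j in (𝒰 : Filter ℕ), N < s j) :
    Transcendental k (gm (fun j => (s j : k)) : Gm 𝒰 k) := by
  rintro ⟨f, hf, h0⟩
  have h1 : ∀ g : Polynomial k, Polynomial.aeval (gm (fun j => (s j : k)) : Gm 𝒰 k) g =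
      gm fun j => g.eval (s j : k) := by
    intro g
    induction g using Polynomial.induction_on' with
    | add p q hp hq =>
      rw [map_add, hp, hq, ← gm_add]
      refine gm_eq_iff.2 (Eventually.of_forall fun j => ?_)
      rw [Polynomial.eval_add]
      rfl
    | monomial n a =>
      rw [Polynomial.aeval_monomial, algebraMap_gm]
      have e : (gm (fun j => (s j : k)) : Gm 𝒰 k) ^ n = gm fun j => (s j : k) ^ n :=
        (map_pow (gmH (𝒰 := 𝒰) (A := k)) (fun j => (s j : k)) n).symm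
      rw [e, ← gm_mul]
      refine gm_eq_iff.2 (Eventually.of_forall fun j => ?_)
      rw [Polynomial.eval_monomial]
      rfl
  rw [h1, gm_eq_zero_iff] at h0
  have hfin : {r : ℚ | f.eval (r : k) = 0}.Finite := by
    refine Set.Finite.preimage (f := fun r : ℚ => (r : k))
      (fun a _ b _ h => Rat.cast_injective h) (s := {x : k | f.eval x = 0}) ?_
    exact Polynomial.finite_setOfPred_isRoot hf
  obtain ⟨N, hN⟩ := hfin.bddAbove
  obtain ⟨j, hj1, hj2⟩ := (h0.and (hs N)).exists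
  exact absurd (hN hj1) (not_le.2 hj2)

theorem pf_T3H (hSIT : T_SIT) (hEXP : T_EXP) (hLIN : T_LIN) (hTRU : T_TRU) (hDER : T_DER)
    (hFNA : T_FNA) : T_T3H := by
  intro k _ _ _ Q hQ
  by_contra h
  obtain ⟨𝒰, y, s, Q', hS⟩ := hSIT k Q hQ h
  obtain ⟨l, B, hl, hB, hE, hs⟩ := hEXP k 𝒰 y s Q' hS
  obtain ⟨σ, hσ⟩ := hLIN k 𝒰 y s Q' hS hs
  obtain ⟨F, c, N, h1, h2, h3, h4, h5, h6⟩ := hTRU k 𝒰 y s Q' l B σ hS hl hB hE
    (hσ.mono fun j hj => ⟨hj.1, hj.2.1⟩)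
  obtain ⟨δ, hδ⟩ := hDER k (Gm 𝒰 k) _ (transc_gm (k := k) s hs)
  obtain ⟨r, -, hr⟩ := hFNA k (Gm 𝒰 k) δ Q' F c _ _ _ σ N h1 h2 h3 h4 h5 h6
    (by
      rw [← gm_mul, ← gm_add, ← gm_zero]
      exact gm_eq_iff.2 (hσ.mono fun j hj => hj.2.2.2))
    (gm_ne_zero_iff.2 (hσ.mono fun j hj => hj.2.2.1)) hδ
  have h7 : ((r : ℚ) : Gm 𝒰 k) = gm fun _ => (r : k) := by
    have e1 : ((r : ℚ) : Gm 𝒰 k) = algebraMap k (Gm 𝒰 k) (r : k) := (map_ratCast _ r).symm
    rw [e1, algebraMap_gm]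
    rfl
  rw [h7] at hr
  obtain ⟨j, hj1, hj2⟩ := ((gm_eq_iff.1 hr).and (hs r)).exists
  exact absurd (Rat.cast_injective hj1 : s j = r) hj2.ne'

end Pool.Agent.H92.OD
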