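import Pool.Agent.H92.OD.Targets

/-!
# MP_70ba79_ag: the residue field of `k(u, y, D y)` is not `k` (RKC)
-/

set_option autoImplicit false

namespace Pool.Agent.H92.OD

open MvPolynomial Filter

theorem evD_mem {L : Type} [Field L] {k : Type} [Field k] [Algebra k L] (D : Derivation k L L)
    (u y : L) (Φ : MvPolynomial (Fin 3) k) : evD D u Φ y ∈ EE D u y := by
  unfold evD EE
  have h : ∀ i : Fin 3, (![u, y, D y] : Fin 3 → L) i ∈ IntermediateField.adjoin k {u, y, D y} := by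
    intro i
    refine IntermediateField.subset_adjoin k _ ?_
    fin_cases i
    · exact Or.inl rfl
    · exact Or.inr (Or.inl rfl)
    · exact Or.inr (Or.inr rfl)
  induction Φ using MvPolynomial.induction_on with
  | C a =>
    rw [algHom_C]
    exact IntermediateField.algebraMap_mem _ a
  | add p q hp hq =>
    rw [map_add]
    exact add_mem hp hq
  | mul_X p i hp =>
    rw [map_mul, aeval_X]
    exact mul_mem hp (h i)

theorem pf_RKC (hTAY : T_TAY) (hBLF : T_BLF) (hCHI : T_CHI) : T_RKC := by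
  classical
  intro k _ _ _ 𝒰 y s Q hS
  by_contra hcon
  have hcon' : ∀ g ∈ EE DG (ug 𝒰 k) (gm y), g ≠ 0 → ∃ r c, StL g r c := by
    intro g hg hg0
    by_contra h
    refine hcon ⟨g, hg, hg0, fun r c hrc => h ⟨r, c, hrc⟩⟩
  obtain ⟨s0, c, hc0, -, -, -, ⟨m1, hm1, hm1'⟩, hA⟩ := hTAY k Q hS.nz
  obtain ⟨G, hG⟩ : ∃ G : (Fin 2 →₀ ℕ) → Gm 𝒰 (HS k), ∀ m, G m = gm fun j => ev (c m) (y j) :=
    ⟨_, fun m => rfl⟩
  have hGE : ∀ m, G m ∈ EE DG (ug 𝒰 k) (gm y) := by
    intro m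
    rw [hG, ← evD_gm]
    exact evD_mem _ _ _ _
  have hdat : ∀ m, ∃ (w : ℚ) (l : k), G m ≠ 0 → StL (G m) w l ∧ l ≠ 0 := by
    intro m
    by_cases h : G m = 0
    · exact ⟨0, 0, fun h' => absurd h h'⟩
    · obtain ⟨r, e, hre⟩ := hcon' (G m) (hGE m) h
      refine ⟨r, e, fun _ => ⟨hre, ?_⟩⟩
      rw [hG, StL_gm] at hre
      obtain ⟨j, hj1, hj2⟩ := hre.exists
      rw [← hj2]
      exact hj1.1
  choose w l hwl using hdat
  obtain ⟨s1, hs1⟩ : ∃ s1 : Finset (Fin 2 →₀ ℕ), s1 = s0.filter fun m => G m ≠ 0 := ⟨_, rfl⟩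
  have hs1m : ∀ m, m ∈ s1 ↔ m ∈ s0 ∧ G m ≠ 0 := fun m => by rw [hs1, Finset.mem_filter]
  have hne : s1.Nonempty := by
    refine ⟨m1, (hs1m m1).2 ⟨hm1, ?_⟩⟩
    rw [hG, gm_ne_zero_iff]
    exact Eventually.of_forall fun j => hm1' (y j)
  obtain ⟨F, hF⟩ := hBLF k s1 w l hne fun m hm => (hwl m ((hs1m m).1 hm).2).2
  have hev : ∀ᶠ j in (𝒰 : Filter ℕ), ∀ m ∈ s0, (G m = 0 → ev (c m) (y j) = 0) ∧
      (G m ≠ 0 → IsO (ev (c m) (y j)) (w m) ∧ cf (ev (c m) (y j)) (w m) = l m) := by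
    rw [Filter.eventually_all_finset]
    intro m _
    by_cases h : G m = 0
    · have h1 := h
      rw [hG, gm_eq_zero_iff] at h1
      exact h1.mono fun j hj => ⟨fun _ => hj, fun h' => absurd h h'⟩
    · have h1 := (hwl m h).1
      rw [hG, StL_gm] at h1
      exact h1.mono fun j hj => ⟨fun h' => absurd h' h, fun _ => hj⟩
  have hsF : ∀ᶠ j in (𝒰 : Filter ℕ), s j ∈ F := by
    refine (hS.sol.and hev).mono fun j hj => ?_
    obtain ⟨hj0, hj⟩ := hj
    obtain ⟨A, hAc, hAt⟩ := hA (y j)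
    obtain ⟨σ, hσc, hσu, hσD, hσ⟩ := hCHI k j.factorial (s j) j.factorial_pos (hS.out j)
    have ht := hσ (y j) (hS.ne j) (hS.low j)
    refine hF A (σ (y j) - y j) (s j) ?_ ?_ ht ?_
    · ext m
      rw [mem_support_iff, hAc, hs1m]
      constructor
      · intro h
        by_cases hm : m ∈ s0
        · exact ⟨hm, fun h' => h ((hj m hm).1 h')⟩
        · exact absurd (by rw [hc0 m hm]; unfold ev; rw [map_zero]) h
      · rintro ⟨hm, h⟩
        exact ((hj m hm).2 h).1.ne_zero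
    · intro m hm
      rw [hAc]
      obtain ⟨hm1, hm2⟩ := (hs1m m).1 hm
      exact (hj m hm1).2 hm2
    · rw [hAt, add_sub_cancel]
      let σ' : HS k →ₐ[k] HS k := { σ with commutes' := hσc }
      have h1 : σ' (ev Q (y j)) = ev Q (σ (y j)) := by
        unfold ev
        rw [← AlgHom.comp_apply, comp_aeval]
        refine congrArg (fun f : Fin 3 → HS k => aeval f Q) (funext fun i => ?_)
        fin_cases i
        · exact hσu
        · rfl
        · exact hσD (y j)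
      rw [← h1, hj0, map_zero]
  obtain ⟨j, hj1, hj2⟩ := (hsF.and (hS.np (F.sup fun r => r.den))).exists
  refine hS.out j ?_
  have h1 : (s j).den ≤ j := (Finset.le_sup (f := fun r : ℚ => r.den) hj1).trans hj2
  obtain ⟨e, he⟩ := Nat.dvd_factorial (s j).den_pos h1
  refine ⟨(s j).num * e, ?_⟩
  rw [he]
  push_cast
  rw [← mul_assoc, Rat.mul_den_eq_num]

end Pool.Agent.H92.OD
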