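import Pool.Agent.H92.OD.Targets

/-!
# (TRU) the truncated solution
-/

set_option autoImplicit false

namespace Pool.Agent.H92.OD

open MvPolynomial Filter

theorem cf_fsm {R : Type} [CommRing R] (F : Finset ℚ) (c : ℚ → R) (r : ℚ) :
    cf (fsm F c) r = if r ∈ F then c r else 0 := by
  unfold fsm
  rw [cf_sum]
  split_ifs with h
  · rw [Finset.sum_eq_single r]
    · rw [cf_sg, if_pos rfl]
    · intro b _ hb
      rw [cf_sg, if_neg (Ne.symm hb)]
    · intro h'
      exact absurd h h'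
  · refine Finset.sum_eq_zero fun b hb => ?_
    rw [cf_sg, if_neg]
    rintro rfl
    exact h hb

theorem pf_TRU (h1 : T_ORD) (h2 : T_TRF) : T_TRU := by
  classical
  intro k _ _ _ 𝒰 y s Q l B σ hS hl hB hE hσ
  obtain ⟨C0, hC0⟩ := h1 k Q B
  obtain ⟨C1, hC1⟩ := h1 k (pderiv 1 Q) B
  obtain ⟨C2, hC2⟩ := h1 k (pderiv 2 Q) B
  have hlQ : (0 : ℚ) < l := by exact_mod_cast hl
  obtain ⟨N, hN⟩ : ∃ N : ℕ, max (max (σ + C0) (max (σ + C1) (σ + C2))) 0 < N :=
    exists_nat_gt _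
  have hN0 : σ + C0 < N := lt_of_le_of_lt ((le_max_left _ _).trans (le_max_left _ _)) hN
  have hN1 : σ + C1 < N := lt_of_le_of_lt
    (((le_max_left _ _).trans (le_max_right _ _)).trans (le_max_left _ _)) hN
  have hN2 : σ + C2 < N := lt_of_le_of_lt
    (((le_max_right _ _).trans (le_max_right _ _)).trans (le_max_left _ _)) hN
  have hinv : (0 : ℚ) < 1 / l := by positivity
  have hinv1 : (1 : ℚ) / l ≤ 1 := by
    rw [div_le_one hlQ]
    exact_mod_cast hl
  -- the set of exponents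
  set F : Finset ℚ := (Finset.Icc ⌈-B * l⌉ (N * l : ℤ)).image fun m : ℤ => (m : ℚ) / l with hF
  have memF : ∀ r : ℚ, r ∈ F ↔ ∃ m : ℤ, (-B * l ≤ m ∧ m ≤ N * l) ∧ (m : ℚ) / l = r := by
    intro r
    rw [hF, Finset.mem_image]
    constructor
    · rintro ⟨m, hm, hr⟩
      rw [Finset.mem_Icc, Int.ceil_le] at hm
      exact ⟨m, hm, hr⟩
    · rintro ⟨m, hm, hr⟩
      exact ⟨m, by rw [Finset.mem_Icc, Int.ceil_le]; exact hm, hr⟩
  have F_le : ∀ r ∈ F, r ≤ (N : ℚ) := by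
    intro r hr
    obtain ⟨m, ⟨-, hm⟩, rfl⟩ := (memF r).1 hr
    rw [div_le_iff₀ hlQ]
    exact_mod_cast hm
  have F_ge : ∀ r ∈ F, -B ≤ r := by
    intro r hr
    obtain ⟨m, ⟨hm, -⟩, rfl⟩ := (memF r).1 hr
    rw [le_div_iff₀ hlQ]
    exact hm
  -- the truncations
  have hy0 : ∀ j, geO (-B) (fsm F (cf (y j))) := by
    intro j r hr
    rw [cf_fsm, if_neg]
    intro h
    exact absurd (F_ge r h) (not_le.2 hr)
  have hz : ∀ᶠ j in (𝒰 : Filter ℕ), geO ((N : ℚ) + 1 / l) (y j - fsm F (cf (y j))) := by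
    filter_upwards [hB, hE (N + 1)] with j hj1 hj2
    intro r hr
    rw [cf_sub, cf_fsm]
    split_ifs with h
    · rw [sub_self]
    · rw [sub_zero]
      by_contra h0
      have hrB : -B ≤ r := by
        by_contra hlt
        exact h0 (hj1 r (not_le.1 hlt))
      obtain ⟨m, hm⟩ := hj2 r (by linarith) h0
      have hrm : r = (m : ℚ) / l := by
        rw [eq_div_iff hlQ.ne']
        exact hm
      refine h ((memF r).2 ⟨m, ⟨?_, ?_⟩, hrm.symm⟩)
      · rw [← hm]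
        exact mul_le_mul_of_nonneg_right hrB hlQ.le
      · have h3 : (m : ℚ) < N * l + 1 := by
          rw [← hm]
          calc r * l < ((N : ℚ) + 1 / l) * l := mul_lt_mul_of_pos_right hr hlQ
            _ = N * l + 1 := by field_simp
        have h4 : m < (N * l : ℤ) + 1 := by exact_mod_cast h3
        omega
  have hNn : (0 : ℚ) ≤ (N : ℚ) + 1 / l := by positivity
  have key1 : ∀ᶠ j in (𝒰 : Filter ℕ), ∀ r ≤ σ, cf (ev (pderiv 1 Q) (fsm F (cf (y j)))) r =
      cf (ev (pderiv 1 Q) (y j)) r := by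
    filter_upwards [hz] with j hj
    intro r hr
    have h := (hC1 (fsm F (cf (y j))) (y j - fsm F (cf (y j))) _ (hy0 j) hj hNn).1 r (by linarith)
    rw [add_sub_cancel, cf_sub] at h
    exact (sub_eq_zero.1 h).symm
  have key2 : ∀ᶠ j in (𝒰 : Filter ℕ), ∀ r ≤ σ, cf (ev (pderiv 2 Q) (fsm F (cf (y j)))) r =
      cf (ev (pderiv 2 Q) (y j)) r := by
    filter_upwards [hz] with j hj
    intro r hr
    have h := (hC2 (fsm F (cf (y j))) (y j - fsm F (cf (y j))) _ (hy0 j) hj hNn).1 r (by linarith)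
    rw [add_sub_cancel, cf_sub] at h
    exact (sub_eq_zero.1 h).symm
  have key3 : ∀ᶠ j in (𝒰 : Filter ℕ), ∀ r ≤ σ + N, cf (ev Q (fsm F (cf (y j)))) r = 0 := by
    filter_upwards [hz, hB, hσ, hS.sol] with j hj hjB hjσ hjs
    intro r hr
    have h := (hC0 (y j) (-(y j - fsm F (cf (y j)))) _ hjB (geO_neg hj) hNn).2 r (by linarith)
    have e : y j + -(y j - fsm F (cf (y j))) = fsm F (cf (y j)) := by ring
    rw [e, hjs, sub_zero, cf_sub, cf_sub] at h
    have h3 : cf (ev (pderiv 1 Q) (y j) * -(y j - fsm F (cf (y j)))) r = 0 :=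
      geO_mul hjσ.1 (geO_neg hj) r (by linarith)
    have h4 : cf (ev (pderiv 2 Q) (y j) * DF (-(y j - fsm F (cf (y j))))) r = 0 :=
      geO_mul hjσ.2 (geO_DF (geO_neg hj)) r (by linarith)
    rw [h3, h4, sub_zero, sub_zero] at h
    exact h
  -- transfer
  refine ⟨F, fun t => gm fun j => cf (y j) t, N, F_le, ?_, ?_, ?_, ?_, ?_⟩
  · intro r hr
    rw [h2 k 𝒰 F (fun j t => cf (y j) t) (pderiv 1 Q) r]
    refine gm_eq_zero_iff.2 ?_
    filter_upwards [key1, hσ] with j hj1 hj2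
    rw [hj1 r hr.le]
    exact hj2.1 r hr
  · intro r hr
    rw [h2 k 𝒰 F (fun j t => cf (y j) t) (pderiv 2 Q) r]
    refine gm_eq_zero_iff.2 ?_
    filter_upwards [key2, hσ] with j hj1 hj2
    rw [hj1 r hr.le]
    exact hj2.2 r hr
  · rw [h2 k 𝒰 F (fun j t => cf (y j) t) (pderiv 1 Q) σ]
    refine gm_eq_iff.2 ?_
    filter_upwards [key1] with j hj1
    exact hj1 σ le_rfl
  · rw [h2 k 𝒰 F (fun j t => cf (y j) t) (pderiv 2 Q) σ]
    refine gm_eq_iff.2 ?_
    filter_upwards [key2] with j hj1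
    exact hj1 σ le_rfl
  · intro r hr
    rw [h2 k 𝒰 F (fun j t => cf (y j) t) Q r]
    refine gm_eq_zero_iff.2 ?_
    filter_upwards [key3] with j hj1
    exact hj1 r hr

end Pool.Agent.H92.OD
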