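import Pool.Agent.H88.OD.BAL
import Pool.Agent.H59.OD.BLF
import Pool.Agent.H77.OD.BLR
import Pool.Agent.H85.OD.CHI
import Pool.Agent.H16.OD.DCO
import Pool.Agent.H13.OD.DER
import Pool.Agent.H39.OD.DSC
import Pool.Agent.H85.OD.EDC
import Pool.Agent.H51.OD.EXP
import Pool.Agent.H59.OD.FNA
import Pool.Agent.H16.OD.LIN
import Pool.Agent.H11.OD.ORD
import Pool.Agent.H37.OD.SIT
import Pool.Agent.H13.OD.STD
import Pool.Agent.H68.OD.TAY
import Pool.Agent.H77.OD.THE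
import Pool.Agent.H17.OD.TRD
import Pool.Agent.H88.OD.TRF
import Pool.Agent.H92.OD.TRU
import Pool.Agent.H92.OD.Asm
import Pool.Agent.H92.OD.RKC

/-!
# MP_70ba79_ag, first order differential equations over `k(u)`: T3, all rows of `ode_modules`
-/

set_option autoImplicit false

namespace Pool.Agent.H92.OD

theorem t3H_of (hRKC : T_RKC) : T_T3H := by
  have hBLR : T_BLR := Pool.Agent.H77.OD.pf_BLR (Pool.Agent.H59.OD.pf_BLF Pool.Agent.H88.OD.pf_BAL)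
    Pool.Agent.H68.OD.pf_TAY
  have hSTD : T_STD := Pool.Agent.H13.OD.pf_STD Pool.Agent.H17.OD.pf_TRD hBLR
  have hTHE : T_THE := Pool.Agent.H77.OD.pf_THE hSTD hRKC
  have hDSC : T_DSC := Pool.Agent.H39.OD.pf_DSC Pool.Agent.H17.OD.pf_TRD hTHE hSTD
  exact pf_T3H (Pool.Agent.H37.OD.pf_SIT Pool.Agent.H85.OD.pf_EDC)
    (Pool.Agent.H51.OD.pf_EXP hSTD hDSC)
    (Pool.Agent.H16.OD.pf_LIN Pool.Agent.H68.OD.pf_TAY Pool.Agent.H88.OD.pf_BAL
      Pool.Agent.H85.OD.pf_CHI hSTD)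
    (pf_TRU Pool.Agent.H11.OD.pf_ORD Pool.Agent.H88.OD.pf_TRF) Pool.Agent.H13.OD.pf_DER
    (Pool.Agent.H59.OD.pf_FNA Pool.Agent.H16.OD.pf_DCO)

theorem t3_of (hRKC : T_RKC) : T_T3 := by
  intro k _ _ _ Q hQ
  obtain ⟨q, hq, h⟩ := t3H_of hRKC k Q hQ
  exact ⟨q, hq, fun y _ hy => h y hy⟩

/-- T3 for all Hahn series with rational exponents -/
theorem t3H : T_T3H :=
  t3H_of (pf_RKC Pool.Agent.H68.OD.pf_TAY (Pool.Agent.H59.OD.pf_BLF Pool.Agent.H88.OD.pf_BAL)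
    Pool.Agent.H85.OD.pf_CHI)

/-- T3: ramification of the solutions of a differential equation of first order over `k(u)` -/
theorem t3 : T_T3 := by
  intro k _ _ _ Q hQ
  obtain ⟨q, hq, h⟩ := t3H k Q hQ
  exact ⟨q, hq, fun y _ hy => h y hy⟩

end Pool.Agent.H92.OD
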