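import Pool.Agent.H92.OD.Defs

/-!
# MP_70ba79_ag, first order differential equations over `k(u)`: germs of sequences of Hahn series
-/

set_option autoImplicit false

namespace Pool.Agent.H92.OD

open MvPolynomial Filter

section

variable (𝒰 : Ultrafilter ℕ)

/-- germs of sequences -/
abbrev Gm (A : Type) : Type := Germ (𝒰 : Filter ℕ) A

variable {𝒰}

/-- germ of a sequence -/
def gm {A : Type} (f : ℕ → A) : Gm 𝒰 A := (f : Germ (𝒰 : Filter ℕ) A)

theorem gm_eq_iff {A : Type} {f g : ℕ → A} :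
    (gm f : Gm 𝒰 A) = gm g ↔ ∀ᶠ j in (𝒰 : Filter ℕ), f j = g j := Germ.coe_eq

theorem exists_gm {A : Type} (x : Gm 𝒰 A) : ∃ f : ℕ → A, x = gm f := by
  induction x using Germ.inductionOn with
  | _ f => exact ⟨f, rfl⟩

section Ring

variable {A : Type} [CommRing A]

theorem gm_add (f g : ℕ → A) : (gm (f + g) : Gm 𝒰 A) = gm f + gm g := rfl

theorem gm_mul (f g : ℕ → A) : (gm (f * g) : Gm 𝒰 A) = gm f * gm g := rfl

theorem gm_sub (f g : ℕ → A) : (gm (f - g) : Gm 𝒰 A) = gm f - gm g := rfl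

theorem gm_neg (f : ℕ → A) : (gm (-f) : Gm 𝒰 A) = -gm f := rfl

theorem gm_zero : (gm (0 : ℕ → A) : Gm 𝒰 A) = 0 := rfl

theorem gm_one : (gm (1 : ℕ → A) : Gm 𝒰 A) = 1 := rfl

/-- the ring homomorphism `f ↦ gm f` -/
def gmH : (ℕ → A) →+* Gm 𝒰 A := Germ.coeRingHom (𝒰 : Filter ℕ)

@[simp] theorem gmH_apply (f : ℕ → A) : (gmH f : Gm 𝒰 A) = gm f := rfl

theorem gm_eq_zero_iff {f : ℕ → A} : (gm f : Gm 𝒰 A) = 0 ↔ ∀ᶠ j in (𝒰 : Filter ℕ), f j = 0 :=
  gm_eq_iff (g := fun _ => (0 : A))

theorem gm_ne_zero_iff {f : ℕ → A} : (gm f : Gm 𝒰 A) ≠ 0 ↔ ∀ᶠ j in (𝒰 : Filter ℕ), f j ≠ 0 := by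
  rw [Ne, gm_eq_zero_iff, ← Ultrafilter.eventually_not]

noncomputable instance instAlgebraGm {k : Type} [Field k] [Algebra k A] : Algebra k (Gm 𝒰 A) where
  algebraMap := gmH.comp (RingHom.pi fun _ : ℕ => algebraMap k A)
  commutes' := fun c x => mul_comm _ _
  smul_def' := fun c x => by
    obtain ⟨f, rfl⟩ := exists_gm x
    refine gm_eq_iff.2 (Eventually.of_forall fun j => ?_)
    exact Algebra.smul_def c (f j)

theorem algebraMap_gm {k : Type} [Field k] [Algebra k A] (c : k) :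
    algebraMap k (Gm 𝒰 A) c = gm fun _ => algebraMap k A c := rfl

end Ring

theorem charZero_gm {k : Type} [Field k] [CharZero k] : CharZero (Gm 𝒰 k) :=
  charZero_of_injective_algebraMap (algebraMap k (Gm 𝒰 k)).injective

instance instCharZeroGm {k : Type} [Field k] [CharZero k] : CharZero (Gm 𝒰 k) := charZero_gm

section Hahn

variable {k : Type} [Field k] [CharZero k]

/-- the derivation `u d/du` on germs of series -/
noncomputable def DG : Derivation k (Gm 𝒰 (HS k)) (Gm 𝒰 (HS k)) where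
  toFun := Germ.map DF
  map_add' x y := by
    obtain ⟨f, rfl⟩ := exists_gm x
    obtain ⟨g, rfl⟩ := exists_gm y
    exact gm_eq_iff.2 (Eventually.of_forall fun j => DF_add (f j) (g j))
  map_smul' c x := by
    obtain ⟨f, rfl⟩ := exists_gm x
    exact gm_eq_iff.2 (Eventually.of_forall fun j => (DD k).map_smul c (f j))
  map_one_eq_zero' :=
    gm_eq_iff.2 (Eventually.of_forall fun j => (DD (R := k) k).map_one_eq_zero)
  leibniz' x y := by
    obtain ⟨f, rfl⟩ := exists_gm x
    obtain ⟨g, rfl⟩ := exists_gm y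
    exact gm_eq_iff.2 (Eventually.of_forall fun j => DF_mul (f j) (g j))

theorem DG_gm (f : ℕ → HS k) : DG (gm f : Gm 𝒰 (HS k)) = gm fun j => DF (f j) := rfl

/-- the germ of the constant sequence `u` -/
noncomputable def ug (𝒰 : Ultrafilter ℕ) (k : Type) [Field k] : Gm 𝒰 (HS k) := gm fun _ => uu k

/-- `r` is the order of almost all components -/
def StO (g : Gm 𝒰 (HS k)) (r : ℚ) : Prop := Germ.LiftPred (fun x => IsO x r) g

/-- `r` is the order and `c` the leading coefficient of almost all components -/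
def StL (g : Gm 𝒰 (HS k)) (r : ℚ) (c : k) : Prop := Germ.LiftPred (fun x => IsO x r ∧ cf x r = c) g

theorem StO_gm {f : ℕ → HS k} {r : ℚ} :
    StO (gm f : Gm 𝒰 (HS k)) r ↔ ∀ᶠ j in (𝒰 : Filter ℕ), IsO (f j) r := Germ.liftPred_coe

theorem StL_gm {f : ℕ → HS k} {r : ℚ} {c : k} : StL (gm f : Gm 𝒰 (HS k)) r c ↔
    ∀ᶠ j in (𝒰 : Filter ℕ), IsO (f j) r ∧ cf (f j) r = c := Germ.liftPred_coe

/-- value of `Φ (U, Y, P)` at `(u, y, D y)` in a field with a derivation -/
noncomputable def evD {L : Type} [Field L] [Algebra k L] (D : Derivation k L L) (u : L)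
    (Φ : MvPolynomial (Fin 3) k) (y : L) : L := aeval ![u, y, D y] Φ

theorem evD_gm (Φ : MvPolynomial (Fin 3) k) (y : ℕ → HS k) :
    evD DG (ug 𝒰 k) Φ (gm y) = gm fun j => ev Φ (y j) := by
  unfold evD
  rw [DG_gm]
  unfold ug ev
  induction Φ using MvPolynomial.induction_on with
  | C a =>
    simp only [algHom_C, algebraMap_gm]
  | add p q hp hq =>
    rw [map_add, hp, hq, ← gm_add]
    refine gm_eq_iff.2 (Eventually.of_forall fun j => ?_)
    rw [map_add]
    rfl
  | mul_X p i hp =>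
    rw [map_mul, hp, aeval_X]
    fin_cases i
    · refine gm_eq_iff.2 (Eventually.of_forall fun j => ?_)
      rw [map_mul, aeval_X]
      rfl
    · refine gm_eq_iff.2 (Eventually.of_forall fun j => ?_)
      rw [map_mul, aeval_X]
      rfl
    · refine gm_eq_iff.2 (Eventually.of_forall fun j => ?_)
      rw [map_mul, aeval_X]
      rfl

/-- the field `k(u, y, D y)` -/
noncomputable def EE {L : Type} [Field L] [Algebra k L] (D : Derivation k L L) (u y : L) :
    IntermediateField k L := IntermediateField.adjoin k {u, y, D y}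

end Hahn

end

end Pool.Agent.H92.OD
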