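import Pool.Agent.H92.OD.Germ

/-!
# MP_70ba79_ag, first order differential equations over `k(u)`: targets of the board `ode_modules`

The proof is in `/team-store/H92_T3.md`.
-/

set_option autoImplicit false

namespace Pool.Agent.H92.OD

open MvPolynomial Filter

/-- degree of a monomial in two variables -/
def d2 (m : Fin 2 →₀ ℕ) : ℕ := m 0 + m 1

/-- BAL: balance of the leading terms -/
def T_BAL : Prop := ∀ (k : Type) [Field k] [CharZero k] (A : MvPolynomial (Fin 2) (HS k)) (t : HS k)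
  (ρ : ℚ) (w : (Fin 2 →₀ ℕ) → ℚ), IsO t ρ → (∀ m ∈ A.support, IsO (coeff m A) (w m)) → A ≠ 0 →
  eval ![t, DF t] A = 0 → ∃ M : Finset (Fin 2 →₀ ℕ), M.Nonempty ∧ M ⊆ A.support ∧
    (∃ ν : ℚ, (∀ m ∈ M, w m + d2 m * ρ = ν) ∧ ∀ m ∈ A.support, m ∉ M → ν < w m + d2 m * ρ) ∧
    ∑ m ∈ M, cf (coeff m A) (w m) * (ρ : k) ^ m 1 * cf t ρ ^ d2 m = 0

/-- BLF: finitely many orders for given data -/
def T_BLF : Prop := ∀ (k : Type) [Field k] [CharZero k] (s : Finset (Fin 2 →₀ ℕ))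
  (w : (Fin 2 →₀ ℕ) → ℚ) (l : (Fin 2 →₀ ℕ) → k), s.Nonempty → (∀ m ∈ s, l m ≠ 0) →
  ∃ F : Finset ℚ, ∀ (A : MvPolynomial (Fin 2) (HS k)) (t : HS k) (ρ : ℚ), A.support = s →
    (∀ m ∈ s, IsO (coeff m A) (w m) ∧ cf (coeff m A) (w m) = l m) → IsO t ρ →
    eval ![t, DF t] A = 0 → ρ ∈ F

/-- TAY: Taylor expansion: there are polynomials `c m`, almost all zero, with
`ev Q (y + t) = ∑ ev (c m) y * t ^ m 0 * (D t) ^ m 1`; one of them is a nonzero polynomial in `U` -/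
def T_TAY : Prop := ∀ (k : Type) [Field k] [CharZero k] (Q : MvPolynomial (Fin 3) k), Q ≠ 0 →
  ∃ (s : Finset (Fin 2 →₀ ℕ)) (c : (Fin 2 →₀ ℕ) → MvPolynomial (Fin 3) k),
    (∀ m, m ∉ s → c m = 0) ∧ c 0 = Q ∧
    c (Finsupp.single 0 1) = pderiv 1 Q ∧ c (Finsupp.single 1 1) = pderiv 2 Q ∧
    (∃ m ∈ s, ∀ y : HS k, ev (c m) y ≠ 0) ∧
    ∀ y : HS k, ∃ A : MvPolynomial (Fin 2) (HS k), (∀ m, coeff m A = ev (c m) y) ∧
      ∀ t : HS k, eval ![t, DF t] A = ev Q (y + t)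

/-- BLR: orders of the solutions of a differential equation over `k[u]` -/
def T_BLR : Prop := ∀ (k : Type) [Field k] [CharZero k] (R : MvPolynomial (Fin 3) k), R ≠ 0 →
  ∃ F : Finset ℚ, ∀ (g : HS k) (ρ : ℚ), IsO g ρ → ev R g = 0 → ρ ∈ F

/-- CHI: the automorphisms `u ^ r ↦ χ(r) u ^ r`, `χ` a character of `ℚ / (1/N) ℤ` with
`χ(s) ≠ 1` -/
def T_CHI : Prop := ∀ (k : Type) [Field k] [IsAlgClosed k] [CharZero k] (N : ℕ) (s : ℚ), 0 < N →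
  (¬∃ m : ℤ, s * N = m) → ∃ σ : HS k →+* HS k,
    (∀ c : k, σ (algebraMap k (HS k) c) = algebraMap k (HS k) c) ∧ σ (uu k) = uu k ∧
    (∀ y, σ (DF y) = DF (σ y)) ∧
    ∀ y : HS k, cf y s ≠ 0 → (∀ r < s, cf y r ≠ 0 → ∃ m : ℤ, r * N = m) → IsO (σ y - y) s

/-- ORD: differences of values of a polynomial -/
def T_ORD : Prop := ∀ (k : Type) [Field k] [CharZero k] (Φ : MvPolynomial (Fin 3) k) (B : ℚ),
  ∃ C : ℚ, ∀ (y z : HS k) (N : ℚ), geO (-B) y → geO N z → 0 ≤ N →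
    geO (N - C) (ev Φ (y + z) - ev Φ y) ∧
    geO (2 * N - C) (ev Φ (y + z) - ev Φ y - ev (pderiv 1 Φ) y * z - ev (pderiv 2 Φ) y * DF z)

/-- DER: derivations with prescribed value at a transcendental element -/
def T_DER : Prop := ∀ (k F : Type) [Field k] [Field F] [Algebra k F] [CharZero k] (s : F),
  Transcendental k s → ∃ δ : Derivation k F F, δ s = 1

/-- EDC: for a polynomial relation of minimal degree one of the partial derivatives does not vanish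
and the field `k(u, y, D y)` is closed under `D` -/
def T_EDC : Prop := ∀ (k L : Type) [Field k] [CharZero k] [Field L] [Algebra k L]
  (D : Derivation k L L) (u y : L), D u = u → Transcendental k u →
  (∃ Q : MvPolynomial (Fin 3) k, Q ≠ 0 ∧ evD D u Q y = 0) →
  ∃ Q : MvPolynomial (Fin 3) k, Q ≠ 0 ∧ evD D u Q y = 0 ∧
    (evD D u (pderiv 1 Q) y ≠ 0 ∨ evD D u (pderiv 2 Q) y ≠ 0) ∧ ∀ g ∈ EE D u y, D g ∈ EE D u y

/-- TRD: three elements of `k(u, y, D y)` are algebraically dependent -/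
def T_TRD : Prop := ∀ (k L : Type) [Field k] [CharZero k] [Field L] [Algebra k L]
  (D : Derivation k L L) (u y : L), (∃ Q : MvPolynomial (Fin 3) k, Q ≠ 0 ∧ evD D u Q y = 0) →
  ∀ a ∈ EE D u y, ∀ b ∈ EE D u y, ∀ c ∈ EE D u y,
  ∃ R : MvPolynomial (Fin 3) k, R ≠ 0 ∧ aeval ![a, b, c] R = 0

/-- The situation of the proof by contradiction: solutions `y j`, `s j` is the smallest exponent of
`y j` which is not in `(1/j!) ℤ` -/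
structure Sit (k : Type) [Field k] [CharZero k] (𝒰 : Ultrafilter ℕ) (y : ℕ → HS k) (s : ℕ → ℚ)
    (Q : MvPolynomial (Fin 3) k) : Prop where
  np : ∀ N : ℕ, ∀ᶠ j in (𝒰 : Filter ℕ), N ≤ j
  nz : Q ≠ 0
  sol : ∀ᶠ j in (𝒰 : Filter ℕ), ev Q (y j) = 0
  ne : ∀ j, cf (y j) (s j) ≠ 0
  out : ∀ j, ¬∃ m : ℤ, s j * (j.factorial : ℕ) = m
  low : ∀ j, ∀ r < s j, cf (y j) r ≠ 0 → ∃ m : ℤ, r * (j.factorial : ℕ) = m
  dcl : ∀ g ∈ EE DG (ug 𝒰 k) (gm y), DG g ∈ EE DG (ug 𝒰 k) (gm y)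
  der : evD DG (ug 𝒰 k) (pderiv 1 Q) (gm y) ≠ 0 ∨ evD DG (ug 𝒰 k) (pderiv 2 Q) (gm y) ≠ 0

/-- SIT: a polynomial for which T3 fails gives such a situation -/
def T_SIT : Prop := ∀ (k : Type) [Field k] [IsAlgClosed k] [CharZero k]
  (Q : MvPolynomial (Fin 3) k), Q ≠ 0 → (¬∃ q : ℕ, 0 < q ∧ ∀ y : HS k, ev Q y = 0 → Lat q y) →
  ∃ (𝒰 : Ultrafilter ℕ) (y : ℕ → HS k) (s : ℕ → ℚ) (Q' : MvPolynomial (Fin 3) k), Sit k 𝒰 y s Q'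

/-- STD: the elements of `k(u, y, D y)` have standard order -/
def T_STD : Prop := ∀ (k : Type) [Field k] [IsAlgClosed k] [CharZero k] (𝒰 : Ultrafilter ℕ)
  (y : ℕ → HS k) (s : ℕ → ℚ) (Q : MvPolynomial (Fin 3) k), Sit k 𝒰 y s Q →
  ∀ g ∈ EE DG (ug 𝒰 k) (gm y), g ≠ 0 → ∃ r, StO g r

/-- RKC: the residue field of `k(u, y, D y)` is not `k` -/
def T_RKC : Prop := ∀ (k : Type) [Field k] [IsAlgClosed k] [CharZero k] (𝒰 : Ultrafilter ℕ)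
  (y : ℕ → HS k) (s : ℕ → ℚ) (Q : MvPolynomial (Fin 3) k), Sit k 𝒰 y s Q →
  ∃ g ∈ EE DG (ug 𝒰 k) (gm y), g ≠ 0 ∧ ∀ r c, ¬StL g r c

/-- THE: an element of order zero whose constant term is transcendental -/
def T_THE : Prop := ∀ (k : Type) [Field k] [IsAlgClosed k] [CharZero k] (𝒰 : Ultrafilter ℕ)
  (y : ℕ → HS k) (s : ℕ → ℚ) (Q : MvPolynomial (Fin 3) k), Sit k 𝒰 y s Q →
  ∃ θ : ℕ → HS k, gm θ ∈ EE DG (ug 𝒰 k) (gm y) ∧ (∀ᶠ j in (𝒰 : Filter ℕ), IsO (θ j) 0) ∧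
    ∀ f : Polynomial k, f ≠ 0 → ∀ᶠ j in (𝒰 : Filter ℕ), f.eval (cf (θ j) 0) ≠ 0

/-- DSC: the value group of `k(u, y, D y)` is discrete -/
def T_DSC : Prop := ∀ (k : Type) [Field k] [IsAlgClosed k] [CharZero k] (𝒰 : Ultrafilter ℕ)
  (y : ℕ → HS k) (s : ℕ → ℚ) (Q : MvPolynomial (Fin 3) k), Sit k 𝒰 y s Q →
  ∃ l : ℕ, 0 < l ∧ ∀ g ∈ EE DG (ug 𝒰 k) (gm y), ∀ r, StO g r → ∃ m : ℤ, r * l = m

/-- EXP: the bounded exponents of `y j` are in `(1/l) ℤ`, and `s j` tends to infinity -/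
def T_EXP : Prop := ∀ (k : Type) [Field k] [IsAlgClosed k] [CharZero k] (𝒰 : Ultrafilter ℕ)
  (y : ℕ → HS k) (s : ℕ → ℚ) (Q : MvPolynomial (Fin 3) k), Sit k 𝒰 y s Q →
  ∃ (l : ℕ) (B : ℚ), 0 < l ∧ (∀ᶠ j in (𝒰 : Filter ℕ), geO (-B) (y j)) ∧
    (∀ N : ℚ, ∀ᶠ j in (𝒰 : Filter ℕ), ∀ r ≤ N, cf (y j) r ≠ 0 → ∃ m : ℤ, r * l = m) ∧
    ∀ N : ℚ, ∀ᶠ j in (𝒰 : Filter ℕ), N < s j

/-- LIN: the linearised equation -/
def T_LIN : Prop := ∀ (k : Type) [Field k] [IsAlgClosed k] [CharZero k] (𝒰 : Ultrafilter ℕ)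
  (y : ℕ → HS k) (s : ℕ → ℚ) (Q : MvPolynomial (Fin 3) k), Sit k 𝒰 y s Q →
  (∀ N : ℚ, ∀ᶠ j in (𝒰 : Filter ℕ), N < s j) → ∃ σ : ℚ, ∀ᶠ j in (𝒰 : Filter ℕ),
    geO σ (ev (pderiv 1 Q) (y j)) ∧ geO σ (ev (pderiv 2 Q) (y j)) ∧
    cf (ev (pderiv 2 Q) (y j)) σ ≠ 0 ∧
    cf (ev (pderiv 1 Q) (y j)) σ + (s j : k) * cf (ev (pderiv 2 Q) (y j)) σ = 0

/-- a finite sum `∑ c r u ^ r` -/
noncomputable def fsm {R : Type} [CommRing R] (F : Finset ℚ) (c : ℚ → R) : HS R :=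
  ∑ r ∈ F, sg r (c r)

/-- TRF: coefficients of the value of a polynomial at a finite sum: transfer to germs -/
def T_TRF : Prop := ∀ (k : Type) [Field k] [CharZero k] (𝒰 : Ultrafilter ℕ) (F : Finset ℚ)
  (c : ℕ → ℚ → k) (Φ : MvPolynomial (Fin 3) k) (r : ℚ),
  cf (ev Φ (fsm F fun t => (gm fun j => c j t : Gm 𝒰 k))) r = gm fun j => cf (ev Φ (fsm F (c j))) r

/-- TRU: the truncated solution over the field of germs of constants -/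
def T_TRU : Prop := ∀ (k : Type) [Field k] [IsAlgClosed k] [CharZero k] (𝒰 : Ultrafilter ℕ)
  (y : ℕ → HS k) (s : ℕ → ℚ) (Q : MvPolynomial (Fin 3) k) (l : ℕ) (B σ : ℚ),
  Sit k 𝒰 y s Q → 0 < l → (∀ᶠ j in (𝒰 : Filter ℕ), geO (-B) (y j)) →
  (∀ N : ℚ, ∀ᶠ j in (𝒰 : Filter ℕ), ∀ r ≤ N, cf (y j) r ≠ 0 → ∃ m : ℤ, r * l = m) →
  (∀ᶠ j in (𝒰 : Filter ℕ), geO σ (ev (pderiv 1 Q) (y j)) ∧ geO σ (ev (pderiv 2 Q) (y j))) →
  ∃ (F : Finset ℚ) (c : ℚ → Gm 𝒰 k) (N : ℚ), (∀ r ∈ F, r ≤ N) ∧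
    geO σ (ev (pderiv 1 Q) (fsm F c)) ∧ geO σ (ev (pderiv 2 Q) (fsm F c)) ∧
    cf (ev (pderiv 1 Q) (fsm F c)) σ = gm (fun j => cf (ev (pderiv 1 Q) (y j)) σ) ∧
    cf (ev (pderiv 2 Q) (fsm F c)) σ = gm (fun j => cf (ev (pderiv 2 Q) (y j)) σ) ∧
    ∀ r ≤ σ + N, cf (ev Q (fsm F c)) r = 0

/-- DCO: a derivation applied to the coefficients -/
def T_DCO : Prop := ∀ (k F : Type) [Field k] [Field F] [Algebra k F] [CharZero k] [CharZero F]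
  (δ : Derivation k F F) (Φ : MvPolynomial (Fin 3) k) (y y' : HS F), (∀ r, cf y' r = δ (cf y r)) →
  ∀ r, δ (cf (ev Φ y) r) = cf (ev (pderiv 1 Φ) y * y' + ev (pderiv 2 Φ) y * DF y') r

/-- FNA: the derivation argument -/
def T_FNA : Prop := ∀ (k F : Type) [Field k] [Field F] [Algebra k F] [CharZero k] [CharZero F]
  (δ : Derivation k F F) (Q : MvPolynomial (Fin 3) k) (Z : Finset ℚ) (c : ℚ → F) (a b s : F)
  (σ N : ℚ), (∀ r ∈ Z, r ≤ N) → geO σ (ev (pderiv 1 Q) (fsm Z c)) →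
  geO σ (ev (pderiv 2 Q) (fsm Z c)) → cf (ev (pderiv 1 Q) (fsm Z c)) σ = a →
  cf (ev (pderiv 2 Q) (fsm Z c)) σ = b → (∀ r ≤ σ + N, cf (ev Q (fsm Z c)) r = 0) →
  a + s * b = 0 → b ≠ 0 → δ s = 1 → ∃ r ∈ Z, s = (r : F)

/-- T3 for all Hahn series with rational exponents -/
def T_T3H : Prop := ∀ (k : Type) [Field k] [IsAlgClosed k] [CharZero k]
  (Q : MvPolynomial (Fin 3) k), Q ≠ 0 → ∃ q : ℕ, 0 < q ∧ ∀ y : HS k, ev Q y = 0 → Lat q y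

end Pool.Agent.H92.OD
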